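import Pool.Agent.Run7.h694.CP.Oc

/-!
# Orientable five cycle double covers: dominating sets (MP_781dd6_co)

Two vertices are called close if they are joined by an edge or by two different paths with two edges.
Let `K` be a bridgeless multigraph which has a dominating set `D` such that every vertex of `D` is
close to all but at most two of the other vertices of `D`; for example a graph with domination number
at most three or total domination number at most four, or with a dominating clique, a dominating
complete multipartite subgraph with classes of at most three vertices, or a dominating circuit of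
length five. Then `K` has an orientable cycle double cover with five classes. The condition is only
needed after the contraction of a chain of circuits or ears with at most four new edges and of doubly
connected pieces.

Proof. By `N399/DM` every bridgeless graph with such a dominating set has a nowhere-zero 4-flow or
a Petersen quotient, and the class is closed under the identification of vertices. The same holds
after the contraction of a chain (`N410/DC/Gen`). The covers of the ten smaller graphs in which the
vertices outside of one class are identified are glued with the theorem `R890/FF/Sgn.lean`.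
-/

set_option autoImplicit false

namespace Pool.Agent.Results.MP_781dd6_co.DominatingSet

open Finset Pool.Agent.H160R2.HF Pool.Agent.H23.PS

/-- The edges with exactly one end in `X`. -/
def boundary {V E : Type} [DecidableEq V] [Fintype E] (K : OrGraph V E) (X : Finset V) : Finset E :=
  univ.filter (fun e => ¬ (K.t e ∈ X ↔ K.h e ∈ X))

/-- The union of the sets `C j` with `j < i`. -/
def earlier {E : Type} [DecidableEq E] {m : ℕ} (C : Fin m → Finset E) (i : Fin m) : Finset E :=
  (univ.filter (fun j => j < i)).biUnion C

/-- `H` can be added to the chain after `F`: either (short) `H` has at most four edges outside `F`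
and no bridge modulo `F`: no set `Y` of vertices without boundary edges in `F` has exactly one
boundary edge in `H`; or (doubly connected) `H` contains two disjoint sets each of which connects,
modulo `F`, whatever `H` connects: every set `Y` of vertices without boundary edges in `F` and with
a boundary edge in `H` has boundary edges in both sets. -/
def Adds {V E : Type} [DecidableEq V] [Fintype E] [DecidableEq E] (K : OrGraph V E)
    (F H : Finset E) : Prop :=
  ((H \ F).card ≤ 4 ∧ ∀ Y : Finset V, Disjoint (boundary K Y) F →
    (boundary K Y ∩ H).card ≠ 1) ∨
  ∃ T₁ T₂ : Finset E, T₁ ⊆ H ∧ T₂ ⊆ H ∧ Disjoint T₁ T₂ ∧ ∀ Y : Finset V,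
    Disjoint (boundary K Y) F → ¬ Disjoint (boundary K Y) H →
      ¬ Disjoint (boundary K Y) T₁ ∧ ¬ Disjoint (boundary K Y) T₂

/-- The edge `e` joins `x` and `y`, in the graph in which `e` joins `s e` and `t e`. -/
def Joins {V E : Type} (s t : E → V) (e : E) (x y : V) : Prop :=
  (s e = x ∧ t e = y) ∨ (s e = y ∧ t e = x)

/-- The vertices `x` and `y` are joined by an edge, or by two different paths with two edges (for
example, they have two common neighbours). -/
def Close {V E : Type} (s t : E → V) (x y : V) : Prop :=
  (∃ e, Joins s t e x y) ∨
    ∃ (e f e' f' : E) (a b : V), (e ≠ e' ∨ f ≠ f') ∧ Joins s t e x a ∧ Joins s t f a y ∧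
      Joins s t e' x b ∧ Joins s t f' b y

/-- Every vertex outside of `D` which is an end of an edge (not a loop) is close to a vertex of `D`,
and every vertex of `D` is close to all but at most two of the other vertices of `D`. -/
def Dominating {V E : Type} (s t : E → V) (D : Finset V) : Prop :=
  (∀ x, x ∉ D → (∃ e, s e ≠ t e ∧ (s e = x ∨ t e = x)) → ∃ d ∈ D, Close s t x d) ∧
    ∀ d ∈ D, ∀ W : Finset V, W ⊆ D → (∀ c ∈ W, c ≠ d ∧ ¬ Close s t d c) → W.card ≤ 2

/-- For some chain of sets of edges (for instance the empty chain) the graph has such a dominating
set after the contraction of the edges of the chain (and possibly further identifications `ρ`, which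
do not matter: the property is inherited by quotients). -/
def HasDominating {V E : Type} [Fintype V] [DecidableEq V] [Fintype E] [DecidableEq E]
    (K : OrGraph V E) : Prop :=
  ∃ (m : ℕ) (C : Fin m → Finset E), (∀ i, Adds K (earlier C i) (C i)) ∧
    ∀ ρ : V → V, (∀ e ∈ univ.biUnion C, ρ (K.t e) = ρ (K.h e)) →
      ∃ D, Dominating (fun e => ρ (K.t e)) (fun e => ρ (K.h e)) D

open scoped Classical in
/-- how often the closed walks of the list `C` traverse the arc from `u` to `v` -/
noncomputable def uses {V : Type} {S : SimpleGraph V} (C : List (Σ v : V, S.Walk v v)) (u v : V) :
    ℕ :=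
  (C.map (fun c => (c.2.darts.filter (fun d => decide (d.toProd = (u, v)))).length)).sum

/-- The associated digraph of `S` decomposes into directed cycles of length at least three, in five
families none of which uses an edge twice. -/
def FiveFamilies {V : Type} (S : SimpleGraph V) : Prop :=
  ∃ C : Fin 5 → List (Σ v : V, S.Walk v v), (∀ i, ∀ c ∈ C i, c.2.IsCycle) ∧
    (∀ i u v, uses (C i) u v + uses (C i) v u ≤ 1) ∧
    ∀ u v, S.Adj u v → ∑ i, uses (C i) u v = 1

/-- (1) Every bridgeless multigraph `K` (with an orientation) with the property above has an
orientable cycle double cover with five classes, and if it is an orientation of a simple graph `S`,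
the associated digraph of `S` decomposes into directed cycles of length at least three, in five
families none of which uses an edge twice.

(2) In particular this holds for every bridgeless multigraph with a set `D` of vertices such that
every vertex outside of `D` (which is not isolated) is close to a vertex of `D` and every vertex of
`D` is close to all but at most two of the other vertices of `D`. -/
theorem result :
    (∀ (V E : Type) [Fintype V] [DecidableEq V] [Fintype E] [DecidableEq E] (K : OrGraph V E),
      K.Bridgeless → HasDominating K →
      FiveClasses K ∧ ∀ S : SimpleGraph V, IsOrientation S K → FiveFamilies S) ∧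
    ∀ (V E : Type) [Fintype V] [DecidableEq V] [Fintype E] [DecidableEq E] (K : OrGraph V E),
      K.Bridgeless → (∃ D, Dominating K.t K.h D) →
      FiveClasses K ∧ ∀ S : SimpleGraph V, IsOrientation S K → FiveFamilies S := by
  classical
  refine ⟨?_, ?_⟩
  · intro V E _ _ _ _ K hB ⟨m, C, hC, hO⟩
    have h0 : Run7.h694.CP.Red Pool.Agent.N399.DM.Cl K.t K.h (univ.biUnion C) := fun ρ h1 =>
      hO ρ h1
    have h1 : FiveClasses K := Pool.Agent.N410.DC.oc_gen Run7.h694.CP.inh_dom K hB
      (Pool.Agent.N410.DC.GCl.of_steps hC h0)
    exact ⟨h1, fun S hS => cycles_of_classes S K hS h1⟩
  · intro V E _ _ _ _ K hB hD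
    have hD' : Pool.Agent.N399.DM.Cl K.t K.h := hD
    have h0 : Run7.h694.CP.Red Pool.Agent.N399.DM.Cl K.t K.h ∅ := fun ρ _ => hD'.map ρ
    have h1 : FiveClasses K := Pool.Agent.N410.DC.oc_gen Run7.h694.CP.inh_dom K hB
      (Run7.h694.CP.gcl_zero h0)
    exact ⟨h1, fun S hS => cycles_of_classes S K hS h1⟩

end Pool.Agent.Results.MP_781dd6_co.DominatingSet
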