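import Pool.Agent.Run7.h694.CP.Oc

/-!
# Orientable five cycle double covers: seven sets, or six odd sets, which are never far (MP_781dd6_co)

Call two disjoint sets of vertices close if they are joined by an edge, or by two different paths
with two edges. Let `K` be a bridgeless multigraph in which any seven pairwise disjoint sets with
boundary edges include two close ones, or any six pairwise disjoint sets with odd boundaries and at
most 26 boundary edges in total, or any five pairwise disjoint sets with exactly three boundary
edges. Then `K` has an orientable cycle double cover with five classes. The conditions are only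
needed for sets without boundary edges in a chain of circuits or ears with at most four new edges
and of doubly connected pieces. In particular this holds for graphs with independence number at most
six, and for graphs in which the vertices of odd degree have independence number at most five.

Proof. Let `H` be a quotient of `K` modulo the chain without nowhere-zero 4-flow and without
Petersen quotient such that all proper quotients of `H` have a flow. The girth of `H` is at least
five, at least 18 vertices have odd degree, and `H` has at most `2 n - 3` edges, `n` being the number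
of its vertices which are not isolated (starting library). So there are 16 vertices of odd degree any
six of which have at most 26 edges, and six of these 16 are pairwise not adjacent; they give six
disjoint sets of vertices of `K`. (For seven sets: `R545/IN`; for five sets: `N410/DC/Far`.) So `K` has
a nowhere-zero 4-flow, or ten classes of vertices form a Petersen graph. The conditions are inherited
by quotients, and the covers of the ten smaller graphs in which the vertices outside of one class are
identified are glued with the theorem `R890/FF/Sgn.lean`.
-/

set_option autoImplicit false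

namespace Pool.Agent.Results.MP_781dd6_co.FarDisjointSets

open Finset Pool.Agent.H160R2.HF Pool.Agent.H23.PS

/-- The edges with exactly one end in `X`. -/
def boundary {V E : Type} [DecidableEq V] [Fintype E] (K : OrGraph V E) (X : Finset V) : Finset E :=
  univ.filter (fun e => ¬ (K.t e ∈ X ↔ K.h e ∈ X))

/-- The union of the sets `C j` with `j < i`. -/
def earlier {E : Type} [DecidableEq E] {m : ℕ} (C : Fin m → Finset E) (i : Fin m) : Finset E :=
  (univ.filter (fun j => j < i)).biUnion C

/-- `H` can be added to the chain after `F`: either (short) `H` has at most four edges outside `F`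
and no bridge modulo `F`: no set `Y` of vertices without boundary edges in `F` has exactly one
boundary edge in `H`; or (doubly connected) `H` contains two disjoint sets each of which connects,
modulo `F`, whatever `H` connects: every set `Y` of vertices without boundary edges in `F` and with
a boundary edge in `H` has boundary edges in both sets. -/
def Adds {V E : Type} [DecidableEq V] [Fintype E] [DecidableEq E] (K : OrGraph V E)
    (F H : Finset E) : Prop :=
  ((H \ F).card ≤ 4 ∧ ∀ Y : Finset V, Disjoint (boundary K Y) F →
    (boundary K Y ∩ H).card ≠ 1) ∨
  ∃ T₁ T₂ : Finset E, T₁ ⊆ H ∧ T₂ ⊆ H ∧ Disjoint T₁ T₂ ∧ ∀ Y : Finset V,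
    Disjoint (boundary K Y) F → ¬ Disjoint (boundary K Y) H →
      ¬ Disjoint (boundary K Y) T₁ ∧ ¬ Disjoint (boundary K Y) T₂

/-- The edge `e` joins the set `X` and the vertex `a`. -/
def Joins {V E : Type} (K : OrGraph V E) (X : Finset V) (a : V) (e : E) : Prop :=
  (K.t e ∈ X ∧ K.h e = a) ∨ (K.t e = a ∧ K.h e ∈ X)

/-- The sets `X` and `Y` are joined by an edge, or by two different paths with two edges. -/
def Close {V E : Type} (K : OrGraph V E) (X Y : Finset V) : Prop :=
  (∃ e, (K.t e ∈ X ∧ K.h e ∈ Y) ∨ (K.t e ∈ Y ∧ K.h e ∈ X)) ∨
    ∃ (e f e' f' : E) (a b : V), (e ≠ e' ∨ f ≠ f') ∧ Joins K X a e ∧ Joins K Y a f ∧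
      Joins K X b e' ∧ Joins K Y b f'

/-- For some chain of sets of edges (for instance the empty chain) one of the following holds for
the sets of vertices which have at least one boundary edge and none in the chain: any seven pairwise
disjoint such sets include two close ones; any six pairwise disjoint such sets with odd boundaries
and at most 26 boundary edges in total include two close ones; any five pairwise disjoint such sets
with exactly three boundary edges include two close ones. -/
def NeverFar {V E : Type} [Fintype V] [DecidableEq V] [Fintype E] [DecidableEq E]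
    (K : OrGraph V E) : Prop :=
  ∃ (m : ℕ) (C : Fin m → Finset E), (∀ i, Adds K (earlier C i) (C i)) ∧
    ((∀ X : Fin 7 → Finset V, (∀ i j, i ≠ j → Disjoint (X i) (X j)) →
      (∀ i, Disjoint (boundary K (X i)) (univ.biUnion C)) → (∀ i, (boundary K (X i)).Nonempty) →
      ∃ i j, i ≠ j ∧ Close K (X i) (X j)) ∨
    (∀ X : Fin 6 → Finset V, (∀ i j, i ≠ j → Disjoint (X i) (X j)) →
      (∀ i, Disjoint (boundary K (X i)) (univ.biUnion C)) → (∀ i, Odd (boundary K (X i)).card) →
      ∑ i, (boundary K (X i)).card ≤ 26 → ∃ i j, i ≠ j ∧ Close K (X i) (X j)) ∨
    (∀ X : Fin 5 → Finset V, (∀ i j, i ≠ j → Disjoint (X i) (X j)) →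
      (∀ i, Disjoint (boundary K (X i)) (univ.biUnion C)) → (∀ i, (boundary K (X i)).card = 3) →
      ∃ i j, i ≠ j ∧ Close K (X i) (X j)))

open scoped Classical in
/-- how often the closed walks of the list `C` traverse the arc from `u` to `v` -/
noncomputable def uses {V : Type} {S : SimpleGraph V} (C : List (Σ v : V, S.Walk v v)) (u v : V) :
    ℕ :=
  (C.map (fun c => (c.2.darts.filter (fun d => decide (d.toProd = (u, v)))).length)).sum

/-- The associated digraph of `S` decomposes into directed cycles of length at least three, in five
families none of which uses an edge twice. -/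
def FiveFamilies {V : Type} (S : SimpleGraph V) : Prop :=
  ∃ C : Fin 5 → List (Σ v : V, S.Walk v v), (∀ i, ∀ c ∈ C i, c.2.IsCycle) ∧
    (∀ i u v, uses (C i) u v + uses (C i) v u ≤ 1) ∧
    ∀ u v, S.Adj u v → ∑ i, uses (C i) u v = 1

/-- The vertices `x` and `y` of a simple graph are adjacent or have two common neighbours. -/
def CloseVertices {V : Type} (S : SimpleGraph V) (x y : V) : Prop :=
  S.Adj x y ∨ ∃ a b, a ≠ b ∧ S.Adj x a ∧ S.Adj y a ∧ S.Adj x b ∧ S.Adj y b

/-- (1) Every bridgeless multigraph `K` (with an orientation) with the property above has an
orientable cycle double cover with five classes, and if it is an orientation of a simple graph `S`,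
the associated digraph of `S` decomposes into directed cycles of length at least three, in five
families none of which uses an edge twice.

(2) This decomposition exists for every simple graph without cut edges in which any seven vertices,
or any six vertices of odd degree, include two which are adjacent or have two common neighbours. -/
theorem result :
    (∀ (V E : Type) [Fintype V] [DecidableEq V] [Fintype E] [DecidableEq E] (K : OrGraph V E),
      K.Bridgeless → NeverFar K →
      FiveClasses K ∧ ∀ S : SimpleGraph V, IsOrientation S K → FiveFamilies S) ∧
    ∀ (V : Type) [Fintype V] [DecidableEq V] (S : SimpleGraph V) [DecidableRel S.Adj],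
      (∀ u v : V, S.Adj u v → (S.deleteEdges {s(u, v)}).Reachable u v) →
      ((∀ x : Fin 7 → V, Function.Injective x →
          ∃ i j, i ≠ j ∧ CloseVertices S (x i) (x j)) ∨
        (∀ x : Fin 6 → V, Function.Injective x → (∀ i, Odd (S.degree (x i))) →
          ∃ i j, i ≠ j ∧ CloseVertices S (x i) (x j))) → FiveFamilies S := by
  refine ⟨?_, ?_⟩
  · intro V E _ _ _ _ K hB ⟨m, C, hC, hO⟩
    have h0 : Run7.h694.CP.Kfar K.t K.h (univ.biUnion C) := by
      rcases hO with hO | hO | hO
      · exact Or.inl fun X h1 h2 h3 _ => hO X h1 h2 h3
      · exact Or.inr (Or.inl fun X h1 h2 _ h4 => hO X h1 h2 h4.1 h4.2)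
      · exact Or.inr (Or.inr fun X h1 h2 h3 => hO X h1 h2 h3)
    have h1 : FiveClasses K := Pool.Agent.N410.DC.oc_gen Run7.h694.CP.inh_far K hB
      (Pool.Agent.N410.DC.GCl.of_steps hC h0)
    exact ⟨h1, fun S hS => cycles_of_classes S K hS h1⟩
  · intro V _ _ S _ h hx
    have hB := Pool.Agent.R890.FF.orient_bridgeless S h
    have hK := Pool.Agent.R890.FF.orient_is S
    have h0 : Run7.h694.CP.Kfar (Pool.Agent.R890.FF.orient S).t (Pool.Agent.R890.FF.orient S).h
        ∅ := by
      rcases hx with hx | hx
      · refine Or.inl (Run7.h694.CP.far7_of_vert (fun x h1 _ => ?_) _)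
        obtain ⟨i, j, hij, hc⟩ := hx x h1
        exact ⟨i, j, hij, Run7.h694.CP.closeV_of S _ hK hc⟩
      · refine Or.inr (Or.inl (Run7.h694.CP.far6_of_vert (fun x h1 h2 => ?_) _))
        obtain ⟨i, j, hij, hc⟩ := hx x h1 (fun i => by
          rw [← Run7.h694.CP.ct_degree S _ hK]
          exact h2 i)
        exact ⟨i, j, hij, Run7.h694.CP.closeV_of S _ hK hc⟩
    have h1 : FiveClasses (Pool.Agent.R890.FF.orient S) :=
      Pool.Agent.N410.DC.oc_gen Run7.h694.CP.inh_far _ hB (Run7.h694.CP.gcl_zero h0)
    exact cycles_of_classes S _ hK h1

end Pool.Agent.Results.MP_781dd6_co.FarDisjointSets
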