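import Pool.Agent.Run7.h694.CP.Oc

/-!
# Orientable five cycle double covers: matching number at most eight (MP_781dd6_co)

Let `K` be a bridgeless multigraph in which every matching has at most eight edges. Then `K` has an
orientable cycle double cover with five classes. The condition is only needed for the graph obtained
by contraction of a chain of circuits or ears with at most four new edges and of doubly connected
pieces.

Proof. Let `H` be a quotient modulo the chain without nowhere-zero 4-flow and without Petersen
quotient such that all proper quotients of `H` have a flow. By `R769/MN` (Tutte-Berge formula; `H`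
has girth at least five, minimum degree three, apart from isolated vertices, and at least 18 vertices
of odd degree) `H` has a matching with nine edges, which is also a matching of `K`. So `K` has a
nowhere-zero 4-flow, or ten classes of vertices form a Petersen graph. The condition is inherited by
quotients, and the covers of the ten smaller graphs in which the vertices outside of one class are
identified are glued with the theorem `R890/FF/Sgn.lean`.
-/

set_option autoImplicit false

namespace Pool.Agent.Results.MP_781dd6_co.MatchingNumberEight

open Finset Pool.Agent.H160R2.HF Pool.Agent.H23.PS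

/-- The edges with exactly one end in `X`. -/
def boundary {V E : Type} [DecidableEq V] [Fintype E] (K : OrGraph V E) (X : Finset V) : Finset E :=
  univ.filter (fun e => ¬ (K.t e ∈ X ↔ K.h e ∈ X))

/-- The union of the sets `C j` with `j < i`. -/
def earlier {E : Type} [DecidableEq E] {m : ℕ} (C : Fin m → Finset E) (i : Fin m) : Finset E :=
  (univ.filter (fun j => j < i)).biUnion C

/-- `H` can be added to the chain after `F`: either (short) `H` has at most four edges outside `F`
and no bridge modulo `F`: no set `Y` of vertices without boundary edges in `F` has exactly one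
boundary edge in `H`; or (doubly connected) `H` contains two disjoint sets each of which connects,
modulo `F`, whatever `H` connects: every set `Y` of vertices without boundary edges in `F` and with
a boundary edge in `H` has boundary edges in both sets. -/
def Adds {V E : Type} [DecidableEq V] [Fintype E] [DecidableEq E] (K : OrGraph V E)
    (F H : Finset E) : Prop :=
  ((H \ F).card ≤ 4 ∧ ∀ Y : Finset V, Disjoint (boundary K Y) F →
    (boundary K Y ∩ H).card ≠ 1) ∨
  ∃ T₁ T₂ : Finset E, T₁ ⊆ H ∧ T₂ ⊆ H ∧ Disjoint T₁ T₂ ∧ ∀ Y : Finset V,
    Disjoint (boundary K Y) F → ¬ Disjoint (boundary K Y) H →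
      ¬ Disjoint (boundary K Y) T₁ ∧ ¬ Disjoint (boundary K Y) T₂

/-- `M` is a matching of the graph in which the edge `e` joins `s e` and `t e`: its edges are not
loops and no two of them have a common end. -/
def IsMatching {V E : Type} (s t : E → V) (M : Finset E) : Prop :=
  (∀ e ∈ M, s e ≠ t e) ∧ ∀ e ∈ M, ∀ e' ∈ M, e ≠ e' →
    s e ≠ s e' ∧ s e ≠ t e' ∧ t e ≠ s e' ∧ t e ≠ t e'

/-- For some chain of sets of edges (for instance the empty chain) every matching has at most eight
edges after the contraction of the edges of the chain (and possibly further identifications `ρ`,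
which do not matter: they do not create new matchings). -/
def FewDisjointEdges {V E : Type} [Fintype V] [DecidableEq V] [Fintype E] [DecidableEq E]
    (K : OrGraph V E) : Prop :=
  ∃ (m : ℕ) (C : Fin m → Finset E), (∀ i, Adds K (earlier C i) (C i)) ∧
    ∀ ρ : V → V, (∀ e ∈ univ.biUnion C, ρ (K.t e) = ρ (K.h e)) →
      ∀ M : Finset E, IsMatching (fun e => ρ (K.t e)) (fun e => ρ (K.h e)) M → M.card ≤ 8

open scoped Classical in
/-- how often the closed walks of the list `C` traverse the arc from `u` to `v` -/
noncomputable def uses {V : Type} {S : SimpleGraph V} (C : List (Σ v : V, S.Walk v v)) (u v : V) :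
    ℕ :=
  (C.map (fun c => (c.2.darts.filter (fun d => decide (d.toProd = (u, v)))).length)).sum

/-- The associated digraph of `S` decomposes into directed cycles of length at least three, in five
families none of which uses an edge twice. -/
def FiveFamilies {V : Type} (S : SimpleGraph V) : Prop :=
  ∃ C : Fin 5 → List (Σ v : V, S.Walk v v), (∀ i, ∀ c ∈ C i, c.2.IsCycle) ∧
    (∀ i u v, uses (C i) u v + uses (C i) v u ≤ 1) ∧
    ∀ u v, S.Adj u v → ∑ i, uses (C i) u v = 1

/-- (1) Every bridgeless multigraph `K` (with an orientation) with the property above has an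
orientable cycle double cover with five classes, and if it is an orientation of a simple graph `S`,
the associated digraph of `S` decomposes into directed cycles of length at least three, in five
families none of which uses an edge twice.

(2) In particular this holds for every bridgeless multigraph all of whose matchings have at most
eight edges, and (3) for every simple graph without cut edges and without nine pairwise disjoint
edges. -/
theorem result :
    (∀ (V E : Type) [Fintype V] [DecidableEq V] [Fintype E] [DecidableEq E] (K : OrGraph V E),
      K.Bridgeless → FewDisjointEdges K →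
      FiveClasses K ∧ ∀ S : SimpleGraph V, IsOrientation S K → FiveFamilies S) ∧
    (∀ (V E : Type) [Fintype V] [DecidableEq V] [Fintype E] [DecidableEq E] (K : OrGraph V E),
      K.Bridgeless → (∀ M : Finset E, IsMatching K.t K.h M → M.card ≤ 8) → FiveClasses K) ∧
    ∀ (V : Type) [Finite V] (S : SimpleGraph V),
      (∀ u v : V, S.Adj u v → (S.deleteEdges {s(u, v)}).Reachable u v) →
      (¬ ∃ x y : Fin 9 → V, (∀ i, S.Adj (x i) (y i)) ∧ ∀ i j, i ≠ j →
        x i ≠ x j ∧ x i ≠ y j ∧ y i ≠ x j ∧ y i ≠ y j) → FiveFamilies S := by
  classical
  have plain : ∀ (V E : Type) [Fintype V] [DecidableEq V] [Fintype E] [DecidableEq E]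
      (K : OrGraph V E), K.Bridgeless → (∀ M : Finset E, IsMatching K.t K.h M → M.card ≤ 8) →
      FiveClasses K := by
    intro V E _ _ _ _ K hB hM
    refine Pool.Agent.N410.DC.oc_gen Run7.h694.CP.inh_mat8 K hB (Run7.h694.CP.gcl_zero ?_)
    intro ρ _ M h
    exact hM M (Pool.Agent.R769.MN.IsMat.of_map (s := K.t) (t := K.h) ρ h)
  refine ⟨?_, plain, ?_⟩
  · intro V E _ _ _ _ K hB ⟨m, C, hC, hO⟩
    have h0 : Run7.h694.CP.Red Run7.h694.CP.Mat8 K.t K.h (univ.biUnion C) := fun ρ h1 M h2 =>
      hO ρ h1 M h2
    have h1 : FiveClasses K := Pool.Agent.N410.DC.oc_gen Run7.h694.CP.inh_mat8 K hB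
      (Pool.Agent.N410.DC.GCl.of_steps hC h0)
    exact ⟨h1, fun S hS => cycles_of_classes S K hS h1⟩
  · intro V _ S h hx
    have : Fintype V := Fintype.ofFinite V
    have hB := Pool.Agent.R890.FF.orient_bridgeless S h
    have hK := Pool.Agent.R890.FF.orient_is S
    refine cycles_of_classes S _ hK (plain V _ _ hB fun M hM => ?_)
    by_contra hc
    obtain ⟨N, hN, hNc⟩ := exists_subset_card_eq (show 9 ≤ M.card by omega)
    set φ := (Finset.equivFinOfCardEq hNc).symm with hφ
    exact hx ⟨fun i => (Pool.Agent.R890.FF.orient S).t (φ i),
      fun i => (Pool.Agent.R890.FF.orient S).h (φ i), fun i => hK.1 _, fun i j hij =>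
      hM.2 _ (hN (φ i).2) _ (hN (φ j).2) (fun h => hij (φ.injective (Subtype.ext h)))⟩

end Pool.Agent.Results.MP_781dd6_co.MatchingNumberEight
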