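import Pool.Agent.Run7.h422.SC.Lists

/-!
# Short bidirectional cycle covers (MP_781dd6_co)

The oriented cycle double cover conjecture asks for directed cycles (of length at least three) which
traverse every edge of a given bridgeless graph exactly once in each direction.  We show that every
bridgeless graph has a family of directed cycles in which every edge is traversed either exactly once
in each direction or exactly twice in each direction, and the edges of the second kind have at most
the fraction `7 / 18` of the total weight, for any prescribed nonnegative weights of the edges.  So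
the total length is at most `25 / 9` times the number of edges (it is at least twice the number of
edges, with equality for an oriented cycle double cover), and six directed even subgraphs suffice.

Proof.  (Cubic graphs.)  By Edmonds' theorem there is a perfect matching `M` of weight at most a third
of the total weight which has exactly one edge in every cut of size three.  After the contraction of
the 2-factor `F = E - M` there is no cut of size one or three, so there are two even sets `a₁`, `a₂`
of `G` covering `M` (Jaeger).  For `α₁, α₂ ∈ 𝔽₂` and `0 ≠ ℓ ∈ 𝔽₂²` put `g_i = a_i + α_i F` and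
`z = ℓ₁ g₁ + ℓ₂ g₂ + F`.  Four directed even subgraphs traverse every edge of `g₁ ∪ g₂` once in each
direction, and `z` is traversed in both directions.  As `z` contains all the edges outside `g₁ ∪ g₂`,
every edge is traversed once or twice in each direction; among the twelve choices of `(α, ℓ)` an edge
of `M` is doubled eight times and an edge of `F` three times.  The average doubled weight is at most
`(8 / 12) (1 / 3) + (3 / 12) (2 / 3) = 7 / 18` of the total.

(General graphs.)  Replace every vertex by a circuit through its half-edges, with weight zero.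
-/

set_option autoImplicit false

open Finset

namespace Pool.Agent.Results.MP_781dd6_co.ShortBidirectionalCovers

open Pool.Agent.H160R2.HF Pool.Agent.N175.OC Run7.h422.SC
open Pool.Agent.TH505.OCDC (tot)

/-- The edges of the multigraph `K` with exactly one end in `X`. -/
def boundary {V E : Type} [DecidableEq V] [Fintype E] (K : OrGraph V E) (X : Finset V) :
    Finset E :=
  Finset.univ.filter (fun e => ¬ (K.t e ∈ X ↔ K.h e ∈ X))

/-- `Circulations K n p`: there are `n` circulations on `K` with values in `{-1, 0, 1}` such that
every edge `e` has the value `1` in exactly `p e` of them and the value `-1` in exactly `p e`. -/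
def Circulations {V E : Type} [Fintype V] [DecidableEq V] [Fintype E] (K : OrGraph V E) (n : ℕ)
    (p : E → ℕ) : Prop :=
  ∃ g : Fin n → E → ℤ, (∀ i, K.IsFlow (g i)) ∧ (∀ i e, g i e = 0 ∨ g i e = 1 ∨ g i e = -1) ∧
    ∀ e, (Finset.univ.filter (fun i => g i e = 1)).card = p e ∧
      (Finset.univ.filter (fun i => g i e = -1)).card = p e

/-- No edge of the simple graph `S` is a cut edge. -/
def NoCutEdge {V : Type} (S : SimpleGraph V) : Prop :=
  ∀ u v : V, S.Adj u v → (S.deleteEdges {s(u, v)}).Reachable u v

open scoped Classical in
/-- how often the closed walks of the list `C` traverse the arc from `u` to `v` -/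
noncomputable def uses {V : Type} {S : SimpleGraph V} (C : List (Σ v : V, S.Walk v v)) (u v : V) :
    ℕ :=
  (C.map (fun c => (c.2.darts.filter (fun d => decide (d.toProd = (u, v)))).length)).sum

/-- the total length of the closed walks of the list `C` -/
def length {V : Type} {S : SimpleGraph V} (C : List (Σ v : V, S.Walk v v)) : ℕ :=
  (C.map (fun c => c.2.length)).sum

theorem circ_of {V E : Type} [Fintype V] [DecidableEq V] [Fintype E] [DecidableEq E]
    {K : OrGraph V E} {n : ℕ} {p : E → ℕ} (h : CovI K (Fin n) p) : Circulations K n p := by
  obtain ⟨g, h1, h2, h3⟩ := h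
  refine ⟨g, h1, h2, fun e => ?_⟩
  rw [Finset.card_filter, Finset.card_filter]
  exact h3 e

/-- the version for simple graphs, with weights -/
theorem simple {V : Type} [Fintype V] [DecidableEq V] (S : SimpleGraph V) [DecidableRel S.Adj]
    (hb : NoCutEdge S) (w : Sym2 V → ℝ) (hw : ∀ e, 0 ≤ w e) :
    ∃ D ⊆ S.edgeFinset, ∑ e ∈ D, w e ≤ (7 / 18) * ∑ e ∈ S.edgeFinset, w e ∧
      ∃ C : Fin 6 → List (Σ v : V, S.Walk v v), (∀ i, ∀ c ∈ C i, c.2.IsCycle) ∧
        (∀ i u v, uses (C i) u v + uses (C i) v u ≤ 1) ∧
        ∀ u v, S.Adj u v → ∑ i, uses (C i) u v = if s(u, v) ∈ D then 2 else 1 := by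
  obtain ⟨D, hD, hcov⟩ := general (orient S) (orient_bridgeless S hb)
    (fun e => w e.1) (fun e => hw e.1)
  obtain ⟨C, h1, h2, h3⟩ := to_lists S hcov
  refine ⟨D.image Subtype.val, ?_, ?_, C, h1, h2, ?_⟩
  · intro e he
    rw [Finset.mem_image] at he
    obtain ⟨e', -, rfl⟩ := he
    rw [SimpleGraph.mem_edgeFinset]
    exact e'.2
  · rw [Finset.sum_image (fun x _ y _ h => Subtype.ext h)]
    refine hD.trans (le_of_eq ?_)
    congr 1
    apply Finset.sum_bij (fun (e : S.edgeSet) _ => e.1)
    · intro e _
      rw [SimpleGraph.mem_edgeFinset]
      exact e.2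
    · intro x _ y _ h
      exact Subtype.ext h
    · intro e he
      exact ⟨⟨e, SimpleGraph.mem_edgeFinset.1 he⟩, mem_univ _, rfl⟩
    · intro e _
      rfl
  · intro u v huv
    refine (h3 u v huv).trans ?_
    have h4 : s(u, v) ∈ D.image Subtype.val ↔ (⟨s(u, v), huv⟩ : S.edgeSet) ∈ D := by
      rw [Finset.mem_image]
      exact ⟨fun ⟨e, he, h5⟩ => by rwa [← (Subtype.ext h5 : e = ⟨s(u, v), huv⟩)],
        fun h => ⟨_, h, rfl⟩⟩
    simp only [h4]

/-- (1) Let `S` be a finite simple graph without cut edge whose edges have nonnegative weights `w`.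
There are an edge set `D` with at most `7 / 18` of the total weight and six families of directed
cycles of length at least three such that no family traverses an edge twice, and in total every edge
of `D` is traversed exactly twice in each of its two directions and every other edge exactly once in
each of its two directions.

(2) Every finite simple graph `S` without cut edge has a list of directed cycles of length at least
three, of total length at most `25 / 9` times the number of edges, in which every edge is traversed
exactly once in each direction or exactly twice in each direction.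

(3) The same as (1) for finite multigraphs `K` (loops and parallel edges allowed), with directed even
subgraphs, i.e. circulations with values in `{-1, 0, 1}`. -/
theorem result :
    (∀ (V : Type) [Fintype V] [DecidableEq V] (S : SimpleGraph V) [DecidableRel S.Adj],
      NoCutEdge S → ∀ w : Sym2 V → ℝ, (∀ e, 0 ≤ w e) →
      ∃ D ⊆ S.edgeFinset, ∑ e ∈ D, w e ≤ (7 / 18) * ∑ e ∈ S.edgeFinset, w e ∧
        ∃ C : Fin 6 → List (Σ v : V, S.Walk v v), (∀ i, ∀ c ∈ C i, c.2.IsCycle) ∧
          (∀ i u v, uses (C i) u v + uses (C i) v u ≤ 1) ∧
          ∀ u v, S.Adj u v → ∑ i, uses (C i) u v = if s(u, v) ∈ D then 2 else 1) ∧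
    (∀ (V : Type) [Fintype V] [DecidableEq V] (S : SimpleGraph V) [DecidableRel S.Adj],
      NoCutEdge S → ∃ C : List (Σ v : V, S.Walk v v), (∀ c ∈ C, c.2.IsCycle) ∧
        (∀ u v, S.Adj u v → uses C u v = uses C v u ∧ (uses C u v = 1 ∨ uses C u v = 2)) ∧
        9 * length C ≤ 25 * S.edgeFinset.card) ∧
    (∀ (V E : Type) [Fintype V] [DecidableEq V] [Fintype E] [DecidableEq E] (K : OrGraph V E),
      (∀ X : Finset V, (boundary K X).card ≠ 1) → ∀ w : E → ℝ, (∀ e, 0 ≤ w e) →
      ∃ D : Finset E, ∑ e ∈ D, w e ≤ (7 / 18) * ∑ e, w e ∧
        Circulations K 6 (fun e => if e ∈ D then 2 else 1)) := by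
  refine ⟨?_, ?_, ?_⟩
  · intro V _ _ S _ hb w hw
    exact simple S hb w hw
  · intro V _ _ S _ hb
    obtain ⟨D, hD, hw, C, h1, -, h3⟩ := simple S hb (fun _ => 1) (fun _ => zero_le_one)
    have h4 : ∀ u v, uses (List.ofFn C).flatten u v = ∑ i, uses (C i) u v := by
      intro u v
      show tot (List.ofFn C).flatten u v = _
      rw [tot_flatten, List.map_ofFn, List.sum_ofFn]
      rfl
    refine ⟨(List.ofFn C).flatten, ?_, ?_, ?_⟩
    · intro c hc
      rw [List.mem_flatten] at hc
      obtain ⟨L, hL, hc⟩ := hc
      rw [List.mem_ofFn] at hL
      obtain ⟨i, rfl⟩ := hL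
      exact h1 i c hc
    · intro u v huv
      rw [h4, h4, h3 u v huv, h3 v u huv.symm, Sym2.eq_swap (a := v) (b := u)]
      refine ⟨rfl, ?_⟩
      split_ifs
      · exact Or.inr rfl
      · exact Or.inl rfl
    · have h5 : length (List.ofFn C).flatten =
          2 * ∑ e ∈ S.edgeFinset, (if e ∈ D then 2 else 1) := by
        refine (totalLength_eq _).trans ?_
        apply sum_adj S (fun e => if e ∈ D then 2 else 1) (fun u v => tot (List.ofFn C).flatten u v)
        · intro u v huv
          exact (h4 u v).trans (h3 u v huv)
        · intro u v huv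
          exact tot_nonadj huv _
      have h6 : ∑ e ∈ S.edgeFinset, (if e ∈ D then 2 else 1) = S.edgeFinset.card + D.card := by
        have h7 : ∀ e ∈ S.edgeFinset, (if e ∈ D then 2 else 1) = 1 + if e ∈ D then 1 else 0 := by
          intro e _
          split_ifs <;> rfl
        rw [Finset.sum_congr rfl h7, Finset.sum_add_distrib, ← Finset.card_filter,
          Finset.filter_mem_eq_inter, Finset.inter_eq_right.2 hD, Finset.sum_const, smul_eq_mul,
          mul_one]
      rw [Finset.sum_const, Finset.sum_const, nsmul_eq_mul, nsmul_eq_mul, mul_one, mul_one] at hw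
      have h8 : 18 * D.card ≤ 7 * S.edgeFinset.card := by
        have h9 : (18 : ℝ) * D.card ≤ 7 * S.edgeFinset.card := by linarith
        exact_mod_cast h9
      rw [h5, h6]
      omega
  · intro V E _ _ _ _ K hb w hw
    obtain ⟨D, h1, h2⟩ := general K hb w hw
    exact ⟨D, h1, circ_of h2⟩

end Pool.Agent.Results.MP_781dd6_co.ShortBidirectionalCovers
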